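import Pool.Agent.Run7.h381.WU.Stm

/-!
# CONV: the free and the wired trees converge to the same limit

Project WU (helper381); helper382.
-/

set_option autoImplicit false

namespace Run7.h382.WU

open Finset Filter
open scoped Topology
open Pool.Agent.TH968.UST (Conn IsSpan trees wired touch ustProb)
open Run7.h381.WU

section av

variable {V : Type}

theorem Av_congr {r : Setoid V} {E : Finset (Sym2 V)} {g g' : Finset (Sym2 V) → ℝ}
    (h : ∀ T ∈ trees r E, g T = g' T) : Av r E g = Av r E g' := by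
  unfold Av
  rw [Finset.sum_congr rfl h]

theorem Av_nonneg {r : Setoid V} {E : Finset (Sym2 V)} {g : Finset (Sym2 V) → ℝ}
    (h : ∀ T, 0 ≤ g T) : 0 ≤ Av r E g :=
  div_nonneg (Finset.sum_nonneg fun T _ => h T) (Nat.cast_nonneg _)

theorem Av_sub (r : Setoid V) (E : Finset (Sym2 V)) (g g' : Finset (Sym2 V) → ℝ) :
    Av r E (fun T => g T - g' T) = Av r E g - Av r E g' := by
  unfold Av
  rw [Finset.sum_sub_distrib, sub_div]

theorem Av_sum {β : Type} (r : Setoid V) (E : Finset (Sym2 V)) (s : Finset β)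
    (g : β → Finset (Sym2 V) → ℝ) :
    Av r E (fun T => ∑ i ∈ s, g i T) = ∑ i ∈ s, Av r E (g i) := by
  unfold Av
  rw [Finset.sum_comm, Finset.sum_div]

open Classical in
theorem sub_of_mem_trees {r : Setoid V} {E T : Finset (Sym2 V)} (h : T ∈ trees r E) : T ⊆ E := by
  unfold trees at h
  exact Finset.mem_powerset.1 (Finset.mem_filter.1 h).1

theorem mem_ins {G : SimpleGraph V} {C : Finset V} {e : Sym2 V} :
    e ∈ ins G C ↔ (∀ a ∈ e, a ∈ C) ∧ e ∈ G.edgeSet := by
  classical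
  simp only [ins, Finset.mem_filter, Finset.mem_sym2_iff]

theorem ins_mono {G : SimpleGraph V} {C C' : Finset V} (h : C ⊆ C') : ins G C ⊆ ins G C' := by
  intro e he
  rw [mem_ins] at he ⊢
  exact ⟨fun a ha => h (he.1 a ha), he.2⟩

theorem ins_sub_touch {G : SimpleGraph V} {C : Finset V} {E : Finset (Sym2 V)}
    (hE : (E : Set (Sym2 V)) = touch G C) : ins G C ⊆ E := by
  intro e he
  rw [mem_ins] at he
  rw [← Finset.mem_coe, hE]
  refine ⟨he.2, ?_⟩
  induction e using Sym2.inductionOn with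
  | _ a b =>
  exact ⟨a, he.1 a (Sym2.mem_mk_left a b), Sym2.mem_mk_left a b⟩

theorem touch_finite {G : SimpleGraph V} (hfin : ∀ x, (G.neighborSet x).Finite) (B : Finset V) :
    (touch G B).Finite := by
  have h : touch G B ⊆ ⋃ v ∈ B, (fun w => s(v, w)) '' G.neighborSet v := by
    rintro e ⟨he, v, hv, hve⟩
    obtain ⟨w, rfl⟩ := hve
    rw [Set.mem_iUnion₂]
    exact ⟨v, hv, w, he, rfl⟩
  refine Set.Finite.subset ?_ h
  exact Set.Finite.biUnion B.finite_toSet fun v _ => (hfin v).image _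

/-- if `C` contains the end points of `F` then the part of `T` in `ins G C` determines `T ∩ F` -/
theorem inter_ins [DecidableEq (Sym2 V)] {G : SimpleGraph V} {C : Finset V} {F T : Finset (Sym2 V)}
    (hK : ∀ e ∈ F, ∀ a ∈ e, a ∈ C) (hT : ∀ e ∈ T, e ∈ G.edgeSet) : T ∩ ins G C ∩ F = T ∩ F := by
  ext e
  simp only [Finset.mem_inter, mem_ins]
  constructor
  · rintro ⟨⟨h1, _⟩, h2⟩
    exact ⟨h1, h2⟩
  · rintro ⟨h1, h2⟩
    exact ⟨⟨h1, hK e h2, hT e h1⟩, h2⟩

end av

section main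

variable {V : Type} {G : SimpleGraph V}

theorem ev_subset {C : ℕ → Finset V} (hC : ∀ v, ∀ᶠ k in atTop, v ∈ C k) (K : Finset V) :
    ∀ᶠ k in atTop, K ⊆ C k := by
  have h : ∀ᶠ k in atTop, ∀ v ∈ K, v ∈ C k := by
    rw [Filter.eventually_all_finset]
    exact fun v _ => hC v
  filter_upwards [h] with k hk v hv using hk v hv

theorem conv_mono (hT4 : S_T4) (hDEL : S_DEL) (hEDGE : S_EDGE)
    (hfin : ∀ x, (G.neighborSet x).Finite) (hrec : Rec G) [DecidableEq (Sym2 V)]
    (F : Finset (Sym2 V)) (g : Finset (Sym2 V) → ℝ) (hg : Monotone g) (hg0 : ∀ T, 0 ≤ g T)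
    (hg1 : ∀ T, g T ≤ 1) (hgF : ∀ T, g (T ∩ F) = g T) : ∃ L : ℝ,
    (∀ C : ℕ → Finset V, (∀ v, ∀ᶠ k in atTop, v ∈ C k) →
      Tendsto (fun k => Av ⊥ (ins G (C k)) g) atTop (𝓝 L)) ∧
    (∀ B : ℕ → Finset V, (∀ v, ∀ᶠ k in atTop, v ∈ B k) → ∀ E : ℕ → Finset (Sym2 V),
      (∀ k, (E k : Set (Sym2 V)) = touch G (B k)) →
      Tendsto (fun k => Av (wired (B k)) (E k) g) atTop (𝓝 L)) := by
  classical
  set K : Finset V := F.biUnion Sym2.toFinset with hKdef
  have hK : ∀ C, K ⊆ C → ∀ e ∈ F, ∀ a ∈ e, a ∈ C := by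
    intro C hC e he a ha
    exact hC (Finset.mem_biUnion.2 ⟨e, he, Sym2.mem_toFinset.2 ha⟩)
  -- monotonicity of the free averages, for functions of `T ∩ F`
  have hfree : ∀ h : Finset (Sym2 V) → ℝ, Monotone h → (∀ T, h (T ∩ F) = h T) →
      ∀ C C' : Finset V, K ⊆ C → C ⊆ C' → Av ⊥ (ins G C') h ≤ Av ⊥ (ins G C) h := by
    intro h hh hhF C C' hKC hCC'
    have h1 := hDEL V ⊥ (ins G C') (ins G C) (ins_mono hCC') h hh
    refine le_trans (le_of_eq (Av_congr fun T hT => ?_)) h1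
    rw [← hhF T, ← hhF (T ∩ ins G C), inter_ins (hK C hKC)]
    intro e he
    exact (mem_ins.1 (sub_of_mem_trees hT he)).2
  have hwired : ∀ h : Finset (Sym2 V) → ℝ, Monotone h → (∀ T, h (T ∩ F) = h T) →
      ∀ (C : Finset V) (E : Finset (Sym2 V)), K ⊆ C → (E : Set (Sym2 V)) = touch G C →
      Av (wired C) E h ≤ Av ⊥ (ins G C) h := by
    intro h hh hhF C E hKC hE
    have h1 := hDEL V (wired C) E (ins G C) (ins_sub_touch hE) h hh
    have h2 : Av (wired C) (ins G C) h = Av ⊥ (ins G C) h := by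
      unfold Av
      rw [hT4 V G C]
    rw [h2] at h1
    refine le_trans (le_of_eq (Av_congr fun T hT => ?_)) h1
    rw [← hhF T, ← hhF (T ∩ ins G C), inter_ins (hK C hKC)]
    intro e he
    have h3 : e ∈ (E : Set (Sym2 V)) := sub_of_mem_trees hT he
    rw [hE] at h3
    exact h3.1
  -- the limit
  set S : Set ℝ := {x | ∃ C : Finset V, K ⊆ C ∧ x = Av ⊥ (ins G C) g} with hS
  have hSne : S.Nonempty := ⟨_, K, Finset.Subset.refl K, rfl⟩
  have hSbdd : BddBelow S := ⟨0, by
    rintro x ⟨C, _, rfl⟩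
    exact Av_nonneg hg0⟩
  set L := sInf S with hL
  have hLle : ∀ C, K ⊆ C → L ≤ Av ⊥ (ins G C) g := fun C hC => csInf_le hSbdd ⟨C, hC, rfl⟩
  have hLex : ∀ ε > 0, ∃ C₀, K ⊆ C₀ ∧ Av ⊥ (ins G C₀) g < L + ε := by
    intro ε hε
    obtain ⟨x, ⟨C₀, hC₀, rfl⟩, hx⟩ := exists_lt_of_csInf_lt hSne (show sInf S < L + ε by linarith)
    exact ⟨C₀, hC₀, hx⟩
  refine ⟨L, ?_, ?_⟩
  · intro C hC
    rw [Metric.tendsto_atTop]
    intro ε hε
    obtain ⟨C₀, hC₀, hC₀'⟩ := hLex ε hε
    obtain ⟨n, hn⟩ := Filter.eventually_atTop.1 (ev_subset hC C₀)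
    refine ⟨n, fun k hk => ?_⟩
    have h1 := hn k hk
    have h2 := hfree g hg hgF C₀ (C k) hC₀ h1
    have h3 := hLle (C k) (hC₀.trans h1)
    rw [Real.dist_eq, abs_lt]
    constructor <;> linarith
  · intro B hB E hE
    rw [Metric.tendsto_atTop]
    intro ε hε
    obtain ⟨C₀, hC₀, hC₀'⟩ := hLex ε hε
    -- the edges
    set δ : ℝ := ε / (2 * (F.card + 1)) with hδ
    have hδ0 : 0 < δ := by positivity
    have hKe : ∀ e : Sym2 V, ∃ Ke : Finset V, e ∈ G.edgeSet → ∀ C : Finset V, Ke ⊆ C →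
        ∀ E : Finset (Sym2 V), (E : Set (Sym2 V)) = touch G C →
        Av ⊥ (ins G C) (fun T => if e ∈ T then 1 else 0) ≤
          Av (wired C) E (fun T => if e ∈ T then 1 else 0) + δ := by
      intro e
      by_cases he : e ∈ G.edgeSet
      · obtain ⟨Ke, hKe⟩ := hEDGE V G hfin hrec e he δ hδ0
        refine ⟨Ke, fun _ C hC E hE => ?_⟩
        have := hKe C hC E hE
        convert this
      · exact ⟨∅, fun h => absurd h he⟩
    choose Ke hKe using hKe
    obtain ⟨n, hn⟩ := Filter.eventually_atTop.1 (ev_subset hB (C₀ ∪ F.biUnion Ke))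
    refine ⟨n, fun k hk => ?_⟩
    have h1 := hn k hk
    have hC₀B : C₀ ⊆ B k := Finset.subset_union_left.trans h1
    have hKB : K ⊆ B k := hC₀.trans hC₀B
    have hKeB : ∀ e ∈ F, Ke e ⊆ B k := fun e he =>
      (Finset.subset_biUnion_of_mem Ke he).trans (Finset.subset_union_right.trans h1)
    have h2 := hfree g hg hgF C₀ (B k) hC₀ hC₀B
    have h3 := hLle (B k) hKB
    have h4 := hwired g hg hgF (B k) (E k) hKB (hE k)
    -- the complementary function
    have hsumF : ∀ T : Finset (Sym2 V), ∑ e ∈ F, (if e ∈ T then (1 : ℝ) else 0) =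
        ((T ∩ F).card : ℝ) := by
      intro T
      rw [← Finset.sum_filter, Finset.sum_const, nsmul_eq_mul, mul_one, Finset.inter_comm,
        Finset.filter_mem_eq_inter]
    have hh : Monotone fun T : Finset (Sym2 V) =>
        (∑ e ∈ F, (if e ∈ T then (1 : ℝ) else 0)) - g T := by
      intro T T' hTT'
      simp only
      rw [hsumF, hsumF]
      have hsub : T ∩ F ⊆ T' ∩ F := Finset.inter_subset_inter_right hTT'
      by_cases heq : T ∩ F = T' ∩ F
      · rw [← hgF T, ← hgF T', heq]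
      · have hlt : (T ∩ F).card < (T' ∩ F).card :=
          Finset.card_lt_card (Finset.ssubset_iff_subset_ne.2 ⟨hsub, heq⟩)
        have hlt' : ((T ∩ F).card : ℝ) + 1 ≤ (T' ∩ F).card := by exact_mod_cast hlt
        have := hg0 T
        have := hg1 T'
        linarith
    have h5 := hwired _ hh (by
      intro T
      rw [hsumF, hsumF, hgF, Finset.inter_assoc, Finset.inter_self]) (B k) (E k) hKB (hE k)
    rw [Av_sub, Av_sub, Av_sum, Av_sum] at h5
    have h6 : ∀ e ∈ F, Av ⊥ (ins G (B k)) (fun T => if e ∈ T then (1 : ℝ) else 0) ≤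
        Av (wired (B k)) (E k) (fun T => if e ∈ T then 1 else 0) + δ := by
      intro e he
      by_cases heG : e ∈ G.edgeSet
      · exact hKe e heG (B k) (hKeB e he) (E k) (hE k)
      · have h7 : Av ⊥ (ins G (B k)) (fun T => if e ∈ T then (1 : ℝ) else 0) = 0 := by
          rw [Av_congr (g' := fun _ => 0)]
          · unfold Av
            simp
          · intro T hT
            rw [if_neg]
            intro heT
            exact heG (mem_ins.1 (sub_of_mem_trees hT heT)).2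
        have h8 : 0 ≤ Av (wired (B k)) (E k) (fun T => if e ∈ T then (1 : ℝ) else 0) :=
          Av_nonneg fun T => by split_ifs <;> norm_num
        rw [h7]
        linarith
    have h7 := Finset.sum_le_sum h6
    rw [Finset.sum_add_distrib, Finset.sum_const, nsmul_eq_mul] at h7
    have h8 : (F.card : ℝ) * δ ≤ ε / 2 := by
      rw [hδ]
      have : (0 : ℝ) < F.card + 1 := by positivity
      rw [← mul_div_assoc, div_le_div_iff₀ (by positivity) (by norm_num)]
      nlinarith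
    rw [Real.dist_eq, abs_lt]
    constructor <;> linarith

theorem CONV (hT4 : S_T4) (hT8 : S_T8) (hDEL : S_DEL) (hEDGE : S_EDGE) : S_CONV := by
  classical
  intro V G hfin hrec F A
  -- the two monotone functions
  let g1 : Finset (Sym2 V) → ℝ := fun T => if A ⊆ ((T ∩ F : Finset (Sym2 V)) : Set (Sym2 V)) then 1 else 0
  let g2 : Finset (Sym2 V) → ℝ := fun T => if A ⊂ ((T ∩ F : Finset (Sym2 V)) : Set (Sym2 V)) then 1 else 0
  have hmono : ∀ T T' : Finset (Sym2 V), T ≤ T' →
      ((T ∩ F : Finset (Sym2 V)) : Set (Sym2 V)) ⊆ ((T' ∩ F : Finset (Sym2 V)) : Set (Sym2 V)) :=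
    fun T T' h => Finset.coe_subset.2 (Finset.inter_subset_inter_right h)
  have hg1m : Monotone g1 := by
    intro T T' h
    simp only [g1]
    by_cases h1 : A ⊆ ((T ∩ F : Finset (Sym2 V)) : Set (Sym2 V))
    · rw [if_pos h1, if_pos (h1.trans (hmono T T' h))]
    · rw [if_neg h1]
      split_ifs <;> norm_num
  have hg2m : Monotone g2 := by
    intro T T' h
    simp only [g2]
    by_cases h1 : A ⊂ ((T ∩ F : Finset (Sym2 V)) : Set (Sym2 V))
    · rw [if_pos h1, if_pos (lt_of_lt_of_le h1 (hmono T T' h))]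
    · rw [if_neg h1]
      split_ifs <;> norm_num
  have hFF : ∀ T : Finset (Sym2 V), T ∩ F ∩ F = T ∩ F := fun T => by
    rw [Finset.inter_assoc, Finset.inter_self]
  obtain ⟨L1, hL1, hL1'⟩ := conv_mono hT4 hDEL hEDGE hfin hrec F g1 hg1m
    (fun T => by simp only [g1]; split_ifs <;> norm_num)
    (fun T => by simp only [g1]; split_ifs <;> norm_num)
    (fun T => by simp only [g1]; rw [hFF])
  obtain ⟨L2, hL2, hL2'⟩ := conv_mono hT4 hDEL hEDGE hfin hrec F g2 hg2m
    (fun T => by simp only [g2]; split_ifs <;> norm_num)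
    (fun T => by simp only [g2]; split_ifs <;> norm_num)
    (fun T => by simp only [g2]; rw [hFF])
  have key : ∀ (r : Setoid V) (E : Finset (Sym2 V)), ustProb r (E : Set (Sym2 V)) F A =
      Av r E g1 - Av r E g2 := by
    intro r E
    rw [hT8 V r E F A, ← Av_sub]
    apply Av_congr
    intro T _
    have e1 : (T : Set (Sym2 V)) ∩ F = ((T ∩ F : Finset (Sym2 V)) : Set (Sym2 V)) := by
      rw [Finset.coe_inter]
    simp only [g1, g2]
    rw [e1]
    by_cases h1 : ((T ∩ F : Finset (Sym2 V)) : Set (Sym2 V)) = A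
    · rw [if_pos h1, if_pos h1.ge, if_neg (by rw [h1]; exact fun h => h.2 (Set.Subset.refl _))]
      norm_num
    · rw [if_neg h1]
      by_cases h2 : A ⊆ ((T ∩ F : Finset (Sym2 V)) : Set (Sym2 V))
      · rw [if_pos h2, if_pos (Set.ssubset_iff_subset_ne.2 ⟨h2, Ne.symm h1⟩)]
        norm_num
      · rw [if_neg h2, if_neg (fun h => h2 h.1)]
        norm_num
  refine ⟨L1 - L2, ?_, ?_⟩
  · intro C hC
    simp only [key]
    exact (hL1 C hC).sub (hL2 C hC)
  · intro B hB
    let E : ℕ → Finset (Sym2 V) := fun k => (touch_finite hfin (B k)).toFinset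
    have hE : ∀ k, (E k : Set (Sym2 V)) = touch G (B k) := fun k => Set.Finite.coe_toFinset _
    have h1 := (hL1' B hB E hE).sub (hL2' B hB E hE)
    refine h1.congr fun k => ?_
    rw [← key, hE]

end main

end Run7.h382.WU
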