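import Pool.Agent.Run7.h381.WU.Stm

/-!
# T6, T7: spanning trees class by class; transport along injective maps

Project WU (helper381); helper382.
-/

set_option autoImplicit false

namespace Run7.h382.WU

open Finset
open Pool.Agent.TH968.UST (Conn IsSpan trees wired touch ustProb)
open Run7.h381.WU

section conn

variable {V : Type}

theorem Conn.mono {r : Setoid V} {S T : Set (Sym2 V)} (h : S ⊆ T) {a b : V} (hab : Conn r S a b) :
    Conn r T a b := by
  induction hab with
  | rel x y h' => exact Relation.EqvGen.rel _ _ (h'.elim Or.inl fun h'' => Or.inr (h h''))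
  | refl x => exact Relation.EqvGen.refl _
  | symm x y _ ih => exact ih.symm _ _
  | trans x y z _ _ ih1 ih2 => exact ih1.trans _ _ _ ih2

open Classical in
theorem mem_trees {r : Setoid V} {E T : Finset (Sym2 V)} :
    T ∈ trees r E ↔ IsSpan r (E : Set (Sym2 V)) (T : Set (Sym2 V)) := by
  unfold trees
  rw [Finset.mem_filter, Finset.mem_powerset]
  constructor
  · exact fun h => h.2
  · exact fun h => ⟨Finset.coe_subset.1 h.1, h⟩

/-- connections inside the classes -/
theorem conn_class (s : Setoid V) {T : Set (Sym2 V)} (hT : ∀ e ∈ T, e ∈ Inn s) {a b : V}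
    (hab : Conn ⊥ T a b) : s a b ∧ ∀ v, s v a → Conn ⊥ {e | e ∈ T ∧ ∀ c ∈ e, s v c} a b := by
  induction hab with
  | rel x y h =>
    rcases h with h | h
    · have hxy : x = y := h
      subst hxy
      exact ⟨s.refl x, fun v _ => Relation.EqvGen.refl _⟩
    · have h1 := hT _ h
      have hxy : s x y := h1 x (Sym2.mem_mk_left x y) y (Sym2.mem_mk_right x y)
      refine ⟨hxy, fun v hv => Relation.EqvGen.rel _ _ (Or.inr ⟨h, ?_⟩)⟩
      intro c hc
      rcases Sym2.mem_iff.1 hc with rfl | rfl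
      · exact hv
      · exact s.trans hv hxy
  | refl x => exact ⟨s.refl x, fun v _ => Relation.EqvGen.refl _⟩
  | symm x y _ ih =>
    exact ⟨s.symm ih.1, fun v hv => (ih.2 v (s.trans hv (s.symm ih.1))).symm _ _⟩
  | trans x y z _ _ ih1 ih2 =>
    exact ⟨s.trans ih1.1 ih2.1, fun v hv => (ih1.2 v hv).trans _ _ _
      (ih2.2 v (s.trans hv ih1.1))⟩

end conn

theorem T6 : S_T6 := by
  classical
  intro V s E T hE
  have hcoe : ∀ (S : Finset (Sym2 V)) (v : V),
      ((S.filter (fun e => ∀ a ∈ e, s v a) : Finset (Sym2 V)) : Set (Sym2 V)) =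
        {e | e ∈ (S : Set (Sym2 V)) ∧ ∀ c ∈ e, s v c} := by
    intro S v
    ext e
    simp
  constructor
  · intro h
    have h' := mem_trees.1 h
    obtain ⟨h1, h2, h3⟩ := h'
    refine ⟨Finset.coe_subset.1 h1, fun v => ?_⟩
    have hTin : ∀ e ∈ (T : Set (Sym2 V)), e ∈ Inn s := fun e he => hE e (h1 he)
    have key : IsSpan ⊥ ((E.filter (fun e => ∀ a ∈ e, s v a) : Finset (Sym2 V)) : Set (Sym2 V))
        ((T.filter (fun e => ∀ a ∈ e, s v a) : Finset (Sym2 V)) : Set (Sym2 V)) := by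
      rw [hcoe, hcoe]
      refine ⟨fun e he => ⟨h1 he.1, he.2⟩, ?_, ?_⟩
      · intro a b hab
        exact (conn_class s hTin (h2 a b hab.1)).2 v (hab.2 a (Sym2.mem_mk_left a b))
      · intro a b hab hc
        refine h3 a b hab.1 (Conn.mono ?_ hc)
        rintro e ⟨he, hne⟩
        exact ⟨he.1, hne⟩
    have := mem_trees.2 key
    convert this
  · rintro ⟨h1, h2⟩
    have h2' : ∀ v, IsSpan ⊥ ((E.filter (fun e => ∀ a ∈ e, s v a) : Finset (Sym2 V)) : Set (Sym2 V))
        ((T.filter (fun e => ∀ a ∈ e, s v a) : Finset (Sym2 V)) : Set (Sym2 V)) := by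
      intro v
      apply mem_trees.1
      convert h2 v
    simp only [hcoe] at h2'
    apply mem_trees.2
    refine ⟨Finset.coe_subset.2 h1, ?_, ?_⟩
    · intro a b hab
      have hin := hE _ (Finset.mem_coe.1 hab)
      have h3 := (h2' a).2.1 a b ⟨hab, fun c hc => hin a (Sym2.mem_mk_left a b) c hc⟩
      exact Conn.mono (fun e he => he.1) h3
    · intro a b hab hc
      have hin := hE _ (h1 (Finset.mem_coe.1 hab))
      have hTin : ∀ e ∈ ((T : Set (Sym2 V)) \ {s(a, b)}), e ∈ Inn s := fun e he =>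
        hE e (h1 (Finset.mem_coe.1 he.1))
      have h3 := (conn_class s hTin hc).2 a (s.refl a)
      refine (h2' a).2.2 a b ⟨hab, fun c hc => hin a (Sym2.mem_mk_left a b) c hc⟩
        (Conn.mono ?_ h3)
      rintro e ⟨⟨he, hne⟩, he'⟩
      exact ⟨⟨he, he'⟩, hne⟩

section transport

variable {V W : Type} {f : V → W} {C : Finset V}

theorem conn_map (f : V → W) {S : Set (Sym2 V)} {a b : V} (h : Conn ⊥ S a b) :
    Conn ⊥ (Sym2.map f '' S) (f a) (f b) := by
  induction h with
  | rel x y h =>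
    rcases h with h | h
    · have hxy : x = y := h
      subst hxy
      exact Relation.EqvGen.refl _
    · exact Relation.EqvGen.rel _ _ (Or.inr ⟨_, h, Sym2.map_mk f x y⟩)
  | refl x => exact Relation.EqvGen.refl _
  | symm x y _ ih => exact ih.symm _ _
  | trans x y z _ _ ih1 ih2 => exact ih1.trans _ _ _ ih2

theorem conn_of_map (hf : Set.InjOn f (C : Set V)) {S : Set (Sym2 V)}
    (hS : ∀ e ∈ S, ∀ a ∈ e, a ∈ C) {x y : W} (h : Conn ⊥ (Sym2.map f '' S) x y) :
    x = y ∨ ∃ a ∈ C, ∃ b ∈ C, f a = x ∧ f b = y ∧ Conn ⊥ S a b := by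
  induction h with
  | rel x y h =>
    rcases h with h | h
    · exact Or.inl h
    · right
      obtain ⟨e, he, hxy⟩ := h
      induction e using Sym2.inductionOn with
      | _ c d =>
      have hc := hS _ he c (Sym2.mem_mk_left c d)
      have hd := hS _ he d (Sym2.mem_mk_right c d)
      rw [Sym2.map_mk] at hxy
      rcases Sym2.eq_iff.1 hxy with ⟨h1, h2⟩ | ⟨h1, h2⟩
      · exact ⟨c, hc, d, hd, h1, h2, Relation.EqvGen.rel _ _ (Or.inr he)⟩
      · refine ⟨d, hd, c, hc, h2, h1, Relation.EqvGen.rel _ _ (Or.inr ?_)⟩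
        rwa [Sym2.eq_swap]
  | refl x => exact Or.inl rfl
  | symm x y _ ih =>
    rcases ih with h | ⟨a, ha, b, hb, h1, h2, h3⟩
    · exact Or.inl h.symm
    · exact Or.inr ⟨b, hb, a, ha, h2, h1, h3.symm _ _⟩
  | trans x y z _ _ ih1 ih2 =>
    rcases ih1 with h | ⟨a, ha, b, hb, h1, h2, h3⟩
    · rw [h]
      exact ih2
    · rcases ih2 with h | ⟨b', hb', c, hc, h1', h2', h3'⟩
      · rw [← h]
        exact Or.inr ⟨a, ha, b, hb, h1, h2, h3⟩
      · have hbb : b = b' := hf hb hb' (h2.trans h1'.symm)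
        subst hbb
        exact Or.inr ⟨a, ha, c, hc, h1, h2', h3.trans _ _ _ h3'⟩

theorem conn_map_iff (hf : Set.InjOn f (C : Set V)) {S : Set (Sym2 V)}
    (hS : ∀ e ∈ S, ∀ a ∈ e, a ∈ C) {a b : V} (ha : a ∈ C) (hb : b ∈ C) :
    Conn ⊥ (Sym2.map f '' S) (f a) (f b) ↔ Conn ⊥ S a b := by
  refine ⟨fun h => ?_, conn_map f⟩
  rcases conn_of_map hf hS h with h | ⟨a', ha', b', hb', h1, h2, h3⟩
  · have : a = b := hf ha hb h
    subst this
    exact Relation.EqvGen.refl _
  · have h4 : a' = a := hf ha' ha h1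
    have h5 : b' = b := hf hb' hb h2
    subst h4 h5
    exact h3

theorem map_inj (hf : Set.InjOn f (C : Set V)) {e e' : Sym2 V} (he : ∀ a ∈ e, a ∈ C)
    (he' : ∀ a ∈ e', a ∈ C) (h : Sym2.map f e = Sym2.map f e') : e = e' := by
  induction e using Sym2.inductionOn with
  | _ c d =>
  induction e' using Sym2.inductionOn with
  | _ c' d' =>
  have hc := he c (Sym2.mem_mk_left c d)
  have hd := he d (Sym2.mem_mk_right c d)
  have hc' := he' c' (Sym2.mem_mk_left c' d')
  have hd' := he' d' (Sym2.mem_mk_right c' d')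
  rw [Sym2.map_mk, Sym2.map_mk] at h
  rcases Sym2.eq_iff.1 h with ⟨h1, h2⟩ | ⟨h1, h2⟩
  · rw [hf hc hc' h1, hf hd hd' h2]
  · rw [hf hc hd' h1, hf hd hc' h2, Sym2.eq_swap]

end transport

theorem T7 : S_T7 := by
  classical
  intro V W f C hf E T hE hTE
  have hT : ∀ e ∈ (T : Set (Sym2 V)), ∀ a ∈ e, a ∈ C := fun e he => hE e (hTE (Finset.mem_coe.1 he))
  have hdiff : ∀ a b, s(a, b) ∈ T → Sym2.map f '' ((T : Set (Sym2 V)) \ {s(a, b)}) =
      (Sym2.map f '' (T : Set (Sym2 V))) \ {s(f a, f b)} := by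
    intro a b hab
    ext x
    constructor
    · rintro ⟨e, ⟨he, hne⟩, rfl⟩
      refine ⟨⟨e, he, rfl⟩, fun h => hne ?_⟩
      rw [Set.mem_singleton_iff, ← Sym2.map_mk] at h
      exact map_inj hf (hT e he) (hT _ (Finset.mem_coe.2 hab)) h
    · rintro ⟨⟨e, he, rfl⟩, hne⟩
      refine ⟨e, ⟨he, fun h => hne ?_⟩, rfl⟩
      rw [Set.mem_singleton_iff.1 h, Sym2.map_mk]
      rfl
  have hdS : ∀ a b, ∀ e ∈ ((T : Set (Sym2 V)) \ {s(a, b)}), ∀ c ∈ e, c ∈ C :=
    fun a b e he => hT e he.1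
  have main : IsSpan ⊥ (Sym2.map f '' (E : Set (Sym2 V))) (Sym2.map f '' (T : Set (Sym2 V))) ↔
      IsSpan ⊥ (E : Set (Sym2 V)) (T : Set (Sym2 V)) := by
    constructor
    · rintro ⟨_, h2, h3⟩
      refine ⟨Finset.coe_subset.2 hTE, ?_, ?_⟩
      · intro a b hab
        have ha := hE _ (Finset.mem_coe.1 hab) a (Sym2.mem_mk_left a b)
        have hb := hE _ (Finset.mem_coe.1 hab) b (Sym2.mem_mk_right a b)
        exact (conn_map_iff hf hT ha hb).1 (h2 (f a) (f b) ⟨_, hab, Sym2.map_mk f a b⟩)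
      · intro a b hab hc
        refine h3 (f a) (f b) ⟨_, hab, Sym2.map_mk f a b⟩ ?_
        rw [← hdiff a b (Finset.mem_coe.1 hab)]
        exact conn_map f hc
    · rintro ⟨h1, h2, h3⟩
      refine ⟨Set.image_mono h1, ?_, ?_⟩
      · rintro x y ⟨e, he, hxy⟩
        induction e using Sym2.inductionOn with
        | _ c d =>
        rw [Sym2.map_mk] at hxy
        have h4 := conn_map f (h2 c d he)
        rcases Sym2.eq_iff.1 hxy with ⟨h5, h6⟩ | ⟨h5, h6⟩
        · rw [← h5, ← h6]; exact h4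
        · rw [← h5, ← h6]; exact h4.symm _ _
      · rintro x y ⟨e, he, hxy⟩ hc
        induction e using Sym2.inductionOn with
        | _ c d =>
        have hcC := hT _ he c (Sym2.mem_mk_left c d)
        have hdC := hT _ he d (Sym2.mem_mk_right c d)
        rw [← hxy, Sym2.map_mk, ← hdiff c d (Finset.mem_coe.1 he)] at hc
        rw [Sym2.map_mk] at hxy
        refine h3 c d he ?_
        rcases Sym2.eq_iff.1 hxy with ⟨h5, h6⟩ | ⟨h5, h6⟩
        · rw [← h5, ← h6] at hc
          exact (conn_map_iff hf (hdS c d) hcC hdC).1 hc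
        · rw [← h5, ← h6] at hc
          exact ((conn_map_iff hf (hdS c d) hdC hcC).1 hc).symm _ _
  constructor
  · intro h
    have h1 := mem_trees.1 h
    rw [Finset.coe_image, Finset.coe_image] at h1
    exact mem_trees.2 (main.1 h1)
  · intro h
    have h1 := main.2 (mem_trees.1 h)
    rw [← Finset.coe_image, ← Finset.coe_image] at h1
    have := mem_trees.2 h1
    convert this

end Run7.h382.WU
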